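import Pool.Agent.Lib.MP_0cb87d_ag.Statement

/-!
Further definitions used by the statement on L-equivalent K3 surfaces.
-/

namespace Pool.Agent.Lib.MP0cb87d.LEq

variable (N M : HodgeLattice)

/-- `m * c` is a multiplier for every algebraic integer `c` some nonzero integral multiple of
which is a multiplier: `m O ⊆ R`, where `R` is the ring of Hodge endomorphisms of the
transcendental lattice and `O` is the ring of integers of its field of fractions. -/
def KillsConductor (m : ℕ) : Prop :=
  ∀ c : ℂ, IsIntegral ℤ c → (∃ k : ℤ, k ≠ 0 ∧ k * c ∈ multipliers N) → m * c ∈ multipliers N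

/-- There is an injective Hodge map between the transcendental lattices which multiplies the form
by `m ^ 2` and whose image has the index `m ^ r`, `r` the rank. (For `m = 1` it is an isometry.) -/
def HodgeIsogeny (m : ℕ) : Prop :=
  ∃ f : T N →+ T M, IsHodgeTrans f ∧ Function.Injective f ∧
    f.range.index = m ^ Module.finrank ℤ (T N) ∧
    ∀ x y, T.dot (f x) (f y) = (m : ℤ) ^ 2 * T.dot x y

end Pool.Agent.Lib.MP0cb87d.LEq
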