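import Pool.Agent.Lib.MP_0cb87d_ag.K3.Index
import Pool.Agent.Lib.MP_0cb87d_ag.K3.Statement
import Pool.Agent.Lib.MP_0cb87d_ag.Bridge

/-! The theorem on K3 surfaces in terms of the definitions of `K3.Statement`. -/

namespace Pool.Agent.Lib.MP0cb87d.LEq

theorem kills_iff (N : HodgeLattice) (m : ℕ) :
    KillsConductor N m ↔ ∀ c ∈ intRing (lat N), (m : ℂ) * c ∈ MP0cb87d.multipliers (lat N) := by
  have h := mult N
  constructor
  · intro hk c hc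
    obtain ⟨⟨k, hk0, hkc⟩, hint⟩ := mem_intRing.1 hc
    rw [h] at hkc ⊢
    exact hk c hint ⟨k, hk0, hkc⟩
  · rintro hk c hint ⟨k, hk0, hkc⟩
    rw [← h] at hkc ⊢
    exact hk c (mem_intRing.2 ⟨⟨k, hk0, hkc⟩, hint⟩)

theorem k3Surfaces (C : EvenCohomology) (X Y : C.Var) (hX : IsK3 (C.H X)) (hY : IsK3 (C.H Y))
    (h : C.LEquivalent X Y) :
    (∃ m : ℕ, 0 < m ∧ KillsConductor (C.H X) m) ∧
    ∀ m : ℕ, 0 < m → KillsConductor (C.H X) m → HodgeIsogeny (C.H X) (C.H Y) m := by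
  obtain ⟨⟨m, hm, h1⟩, h2, -⟩ :=
    mainK3 (thy C) X Y (k3 _ hX) (k3 _ hY) (lequivalent C X Y h)
  refine ⟨⟨m, hm, (kills_iff _ m).2 h1⟩, fun m hm hk => ?_⟩
  obtain ⟨f, h1, h2, -, h4⟩ := h2 m hm ((kills_iff _ m).1 hk)
  exact ⟨f.toAddMonoidHom, h1, h2,
    K3main.index_eq (thy C) X Y (lequivalent C X Y h) m f h2 h4, h4⟩

end Pool.Agent.Lib.MP0cb87d.LEq
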