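import Pool.Agent.Lib.MP_0cb87d_ag.K3.Main

/-! The index of the isogeny. -/

namespace Pool.Agent.Lib.MP0cb87d

open TensorProduct

namespace K3main

lemma gram_mul (N M : HodgeLattice) (m : ℤ) {ι κ : Type} [Fintype ι] [DecidableEq ι] [Fintype κ]
    [DecidableEq κ] (t : Module.Basis ι ℤ (transcendental N))
    (t' : Module.Basis κ ℤ (transcendental M))
    (g : transcendental N →ₗ[ℤ] transcendental M)
    (hg : ∀ x y : transcendental N, M.form (g x) (g y) = m * N.form x y) :
    m • (Matrix.of fun i j => N.form (t i) (t j)) =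
      (Matrix.of fun i j => t'.repr (g (t i)) j) *
        (Matrix.of fun i j => M.form (t' i) (t' j)) *
        (Matrix.of fun i j => t'.repr (g (t i)) j).transpose := by
  ext i j
  have e1 : ∀ x : transcendental M, (x : M.V) = ∑ k, t'.repr x k • (t' k : M.V) := by
    intro x
    have h := congrArg (transcendental M).subtype (t'.sum_repr x)
    rw [map_sum] at h
    simp only [map_smul, Submodule.subtype_apply] at h
    exact h.symm
  simp only [Matrix.smul_apply, Matrix.of_apply, Matrix.mul_apply, Matrix.transpose_apply,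
    smul_eq_mul]
  rw [← hg, e1 (g (t i)), e1 (g (t j))]
  simp only [map_sum, map_smul, LinearMap.sum_apply, LinearMap.smul_apply, smul_eq_mul,
    Finset.sum_mul, Finset.mul_sum]
  refine Finset.sum_congr rfl fun a _ => Finset.sum_congr rfl fun b _ => ?_
  ring

theorem hI2 : StI2 := stI2 hD stC4 (stH1 stE2) (stH2 stE2 stF1) (stH3 stF1)

theorem index_eq (C : EvenCohomology) (X Y : C.Var) (hXY : C.LEquivalent X Y) (m : ℕ)
    (g : transcendental (C.H X) →ₗ[ℤ] transcendental (C.H Y)) (hinj : Function.Injective g)
    (hg : ∀ x y : transcendental (C.H X), (C.H Y).form (g x) (g y) = (m : ℤ) ^ 2 *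
      (C.H X).form x y) :
    g.toAddMonoidHom.range.index = m ^ Module.finrank ℤ (transcendental (C.H X)) := by
  classical
  let t := Module.Free.chooseBasis ℤ (transcendental (C.H X))
  let t' := Module.Free.chooseBasis ℤ (transcendental (C.H Y))
  obtain ⟨hcard, -, -⟩ := hI2 C X Y hXY _ _ t t'
  have σ := Fintype.equivOfCardEq hcard
  let t'' := t'.reindex σ.symm
  obtain ⟨-, hdet, hne⟩ := hI2 C X Y hXY _ _ t t''
  have hG := gram_mul _ _ _ t t'' g hg
  set P : Matrix _ _ ℤ := Matrix.of fun i j => t''.repr (g (t i)) j with hP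
  have hdetG := congrArg Matrix.det hG
  rw [Matrix.det_mul, Matrix.det_mul, Matrix.det_transpose, Matrix.det_smul] at hdetG
  have hcardr : Fintype.card (Module.Free.ChooseBasisIndex ℤ (transcendental (C.H X))) =
      Module.finrank ℤ (transcendental (C.H X)) :=
    (Module.finrank_eq_card_basis t).symm
  have hPdet : P.det.natAbs = m ^ Module.finrank ℤ (transcendental (C.H X)) := by
    have h1 := congrArg Int.natAbs hdetG
    rw [Int.natAbs_mul, Int.natAbs_mul, Int.natAbs_mul, ← hdet, hcardr, Int.natAbs_pow,
      Int.natAbs_pow, Int.natAbs_natCast] at h1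
    have h2 : 0 < (Matrix.of fun i j => (C.H X).form (t i) (t j)).det.natAbs :=
      Int.natAbs_pos.mpr hne
    have h3 : P.det.natAbs ^ 2 = (m ^ Module.finrank ℤ (transcendental (C.H X))) ^ 2 := by
      apply Nat.eq_of_mul_eq_mul_left h2
      calc _ = P.det.natAbs *
            (Matrix.of fun i j => (C.H X).form (t i) (t j)).det.natAbs * P.det.natAbs := by ring
        _ = (m ^ 2) ^ Module.finrank ℤ (transcendental (C.H X)) *
            (Matrix.of fun i j => (C.H X).form (t i) (t j)).det.natAbs := h1.symm
        _ = _ := by ring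
    exact Nat.pow_left_injective (n := 2) (by norm_num) h3
  let bN : Module.Basis _ ℤ g.toAddMonoidHom.range :=
    t.map (AddMonoidHom.ofInjective (f := g.toAddMonoidHom) hinj).toIntLinearEquiv
  rw [AddSubgroup.index_eq_natAbs_det t'' g.toAddMonoidHom.range bN, ← hPdet]
  congr 1
  rw [Module.Basis.det_apply, ← Matrix.det_transpose]
  congr 1

end K3main

end Pool.Agent.Lib.MP0cb87d
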