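import Pool.Agent.Lib.MP_0cb87d_ag.K3.U1
import Pool.Agent.Lib.MP_0cb87d_ag.Final

/-! The theorem on K3 surfaces with arbitrary ring of multipliers. -/

namespace Pool.Agent.Lib.MP0cb87d

open TensorProduct

namespace K3main

theorem hD : StD := by
  have hC3 : StC3 := stC3 stA3 stA4
  have hC2 : StC2 := stC2 stA1 (stA2 stA1 stA3) stB2 stC1
  exact stD stD0 (stD1 hC2 hC3 stC4)

theorem hF2 : StF2 := stF2 stF1

theorem hF3 : StF3 := stF3 stF1 hF2

theorem hF5 : StF5 := stF5 stF1 hF2 hF3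

theorem hF6 : StF6 := stF6 hF2 hF3

theorem hF7 : StF7 := stF7 hF6

theorem hI1 : StI1 := stI1 hD stG1 (stG2 stE1) (stG3 stA5 stA6 hF5 hF7)

theorem hI3 : StI3 := stI3 stF1 hF2 hF3 (stF4 hF2 hF3) hF5

/-- A multiple of an element of `homLat` over the maximal order is in `homLat`. -/
theorem smul_mem_homLat (X N : HodgeLattice) (ω : ℂ ⊗[ℤ] (transcendental X)) (m : ℕ)
    (hm : ∀ c ∈ intRing X, (m : ℂ) * c ∈ multipliers X) (v : ℂ ⊗[ℤ] N.V)
    (hv : v ∈ homLat (intRing X) X ω N) :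
    ∀ c ∈ intRing X, ((m : ℂ) * c) • v ∈ homLat (multipliers X) X ω N := by
  induction hv using Submodule.span_induction with
  | mem x hx =>
    intro c hc
    exact Submodule.smul_mem _ (⟨(m : ℂ) * c, hm c hc⟩ : multipliers X)
      (Submodule.subset_span hx)
  | zero =>
    intro c _
    rw [smul_zero]
    exact Submodule.zero_mem _
  | add x y _ _ hx hy =>
    intro c hc
    rw [smul_add]
    exact Submodule.add_mem _ (hx c hc) (hy c hc)
  | smul a x _ hx =>
    intro c hc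
    have h1 : ((m : ℂ) * c) • (a • x) = ((m : ℂ) * (c * (a : ℂ))) • x := by
      change ((m : ℂ) * c) • ((a : ℂ) • x) = _
      rw [smul_smul, mul_assoc]
    rw [h1]
    exact hx _ (mul_mem hc a.2)

end K3main

open K3main

theorem mainK3 (C : EvenCohomology) (X Y : C.Var) (hX : IsK3 (C.H X)) (hY : IsK3 (C.H Y))
    (hXY : C.LEquivalent X Y) :
    (∃ m : ℕ, 0 < m ∧ ∀ c ∈ intRing (C.H X), (m : ℂ) * c ∈ multipliers (C.H X)) ∧
    (∀ m : ℕ, 0 < m → (∀ c ∈ intRing (C.H X), (m : ℂ) * c ∈ multipliers (C.H X)) →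
      ∃ f : transcendental (C.H X) →ₗ[ℤ] transcendental (C.H Y), IsHodgeTrans (C.H X) (C.H Y) f ∧
        Function.Injective f ∧
        (∃ k : ℕ, 0 < k ∧ ∀ y : transcendental (C.H Y), ∃ x : transcendental (C.H X),
          f x = k • y) ∧
        ∀ x y : transcendental (C.H X), (C.H Y).form (f x) (f y) = (m : ℤ) ^ 2 *
          (C.H X).form x y) ∧
    ((∀ c ∈ intRing (C.H X), c ∈ multipliers (C.H X)) → HodgeIsometric (C.H X) (C.H Y)) := by
  obtain ⟨hDed, hle, hle', hex⟩ := stU1 hF6 _ hX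
  refine ⟨hex, fun m hm hmul => ?_, fun h1 => ?_⟩
  · obtain ⟨ω, hω⟩ := (hF2 _ hX).1
    obtain ⟨v, hv, hvn⟩ := hI1 (intRing (C.H X)) C X Y hX hY hXY ω hω hDed hle hle'
    have h2 := smul_mem_homLat (C.H X) (C.H Y) ω m hmul v hv 1 (one_mem _)
    rw [mul_one] at h2
    obtain ⟨f, hf, hfv⟩ := (stI5 (C.H X) (C.H Y) hX ω hω).1 _ h2
    obtain ⟨g, -, hg1, hg2, hg3, hg4⟩ := hI3 _ _ hX hY ω hω m hm f hf (by
      rw [hfv]
      have : conj (C.H Y).V ((m : ℂ) • v) = (m : ℂ) • conj (C.H Y).V v := by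
        rw [Nat.cast_smul_eq_nsmul, Nat.cast_smul_eq_nsmul, map_nsmul]
      rw [this, map_smul, map_smul, LinearMap.smul_apply, hvn]
      simp only [smul_eq_mul]
      ring)
    exact ⟨g, hg1, hg2, hg3, hg4⟩
  · have h3 : multipliers (C.H X) = intRing (C.H X) := le_antisymm hle h1
    refine (main C X Y hX hY hXY).2 ?_
    rw [h3]
    infer_instance

end Pool.Agent.Lib.MP0cb87d
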