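import Pool.Agent.Lib.MP_0cb87d_ag.F6

/-! The integral closure of the ring of multipliers. -/

namespace Pool.Agent.Lib.MP0cb87d

open TensorProduct

/-- The algebraic integers in the field of multipliers. -/
def intRing (N : HodgeLattice) : Subring ℂ :=
  multField N ⊓ (integralClosure ℤ ℂ).toSubring

theorem mem_intRing {N : HodgeLattice} {c : ℂ} :
    c ∈ intRing N ↔ c ∈ multField N ∧ IsIntegral ℤ c := by
  rw [intRing, Subring.mem_inf]
  exact Iff.rfl

namespace U1aux

/-- The field of multipliers as a subfield. -/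
def fld (h6 : StF6) (N : HodgeLattice) (hN : IsK3 N) : Subfield ℂ where
  toSubring := multField N
  inv_mem' := by
    intro x hx
    by_cases h0 : x = 0
    · subst h0
      have : (0 : ℂ)⁻¹ = 0 := inv_zero
      rw [this]
      exact (multField N).zero_mem
    obtain ⟨y, hy⟩ := (F6aux.isField h6 N hN).mul_inv_cancel
      (a := ⟨x, hx⟩) (fun h => h0 (congrArg Subtype.val h))
    have h1 : x * (y : ℂ) = 1 := congrArg Subtype.val hy
    have h2 : x⁻¹ = y := by
      rw [← mul_one x⁻¹, ← h1, ← mul_assoc, inv_mul_cancel₀ h0, one_mul]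
    rw [h2]
    exact y.2

theorem finDim (h6 : StF6) (N : HodgeLattice) (hN : IsK3 N) :
    FiniteDimensional ℚ (fld h6 N hN) := by
  have hfin := F6aux.finite h6 N hN
  obtain ⟨s, hs⟩ := hfin.fg_top
  let i : multipliers N → fld h6 N hN := fun c => ⟨c, 1, one_ne_zero, by simp⟩
  classical
  have h1 : ∀ r : multipliers N, i r ∈ Submodule.span ℚ ((s.image i : Finset _) : Set (fld h6 N hN)) := by
    intro r
    have hr : r ∈ Submodule.span ℤ (s : Set (multipliers N)) := by rw [hs]; trivial
    induction hr using Submodule.span_induction with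
    | mem x hx => exact Submodule.subset_span (Finset.mem_coe.2 (Finset.mem_image_of_mem i hx))
    | zero => exact Submodule.zero_mem _
    | add x y _ _ hx hy => exact Submodule.add_mem _ hx hy
    | smul a x _ hx =>
      have h2 : i (a • x) = (a : ℚ) • i x := by
        apply Subtype.ext
        change ((a • x : multipliers N) : ℂ) = (a : ℚ) • (x : ℂ)
        rw [Int.cast_smul_eq_zsmul]
        rfl
      rw [h2]
      exact Submodule.smul_mem _ _ hx
  refine ⟨⟨s.image i, ?_⟩⟩
  rw [eq_top_iff]
  rintro ⟨x, n, hn, hx⟩ -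
  have hn' : (n : ℚ) ≠ 0 := by exact_mod_cast hn
  have h3 : (⟨x, n, hn, hx⟩ : fld h6 N hN) = (n : ℚ)⁻¹ • i ⟨(n : ℂ) * x, hx⟩ := by
    apply Subtype.ext
    change x = (n : ℚ)⁻¹ • ((n : ℂ) * x)
    rw [Rat.smul_def]
    push_cast
    rw [← mul_assoc, inv_mul_cancel₀ (by exact_mod_cast hn), one_mul]
  rw [h3]
  exact Submodule.smul_mem _ _ (h1 _)

end U1aux

open U1aux

/-- The integral closure is a Dedekind domain between the ring of multipliers and its field of
fractions, and some multiple of it is contained in the ring of multipliers. -/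
theorem stU1 (h6 : StF6) (N : HodgeLattice) (hN : IsK3 N) :
    IsDedekindDomain (intRing N) ∧ multipliers N ≤ intRing N ∧ intRing N ≤ multField N ∧
      ∃ m : ℕ, 0 < m ∧ ∀ c ∈ intRing N, (m : ℂ) * c ∈ multipliers N := by
  have hfin := F6aux.finite h6 N hN
  have hle : multipliers N ≤ intRing N := by
    intro c hc
    rw [mem_intRing]
    refine ⟨⟨1, one_ne_zero, by simpa using hc⟩, ?_⟩
    have hint : Algebra.IsIntegral ℤ (multipliers N) := Algebra.IsIntegral.of_finite ℤ _
    have h1 := hint.isIntegral ⟨c, hc⟩
    exact h1.map (multipliers N).subtype.toIntAlgHom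
  have hfd := finDim h6 N hN
  have : NumberField (fld h6 N hN) := ⟨⟩
  let O := NumberField.RingOfIntegers (fld h6 N hN)
  have hmem : ∀ x : O, ((x : fld h6 N hN) : ℂ) ∈ intRing N := by
    intro x
    rw [mem_intRing]
    refine ⟨(x : fld h6 N hN).2, ?_⟩
    exact (NumberField.RingOfIntegers.isIntegral_coe x).map (fld h6 N hN).subtype.toIntAlgHom
  let e0 : O →+* intRing N :=
    { toFun := fun x => ⟨((x : fld h6 N hN) : ℂ), hmem x⟩
      map_one' := rfl
      map_zero' := rfl
      map_mul' := fun _ _ => rfl
      map_add' := fun _ _ => rfl }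
  have hbij : Function.Bijective e0 := by
    constructor
    · intro x y hxy
      have h1 : ((x : fld h6 N hN) : ℂ) = ((y : fld h6 N hN) : ℂ) :=
        congrArg (fun z : intRing N => (z : ℂ)) hxy
      exact NumberField.RingOfIntegers.ext (Subtype.ext h1)
    · rintro ⟨c, hc⟩
      obtain ⟨h1, h2⟩ := mem_intRing.1 hc
      have h3 : IsIntegral ℤ (⟨c, h1⟩ : fld h6 N hN) := by
        have h4 : Function.Injective (algebraMap (fld h6 N hN) ℂ) :=
          (algebraMap (fld h6 N hN) ℂ).injective
        exact (isIntegral_algebraMap_iff h4).1 h2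
      exact ⟨⟨⟨c, h1⟩, h3⟩, rfl⟩
  let e : O ≃+* intRing N := RingEquiv.ofBijective e0 hbij
  refine ⟨?_, hle, fun c hc => (mem_intRing.1 hc).1, ?_⟩
  · have h1 : IsNoetherianRing (intRing N) := isNoetherianRing_of_ringEquiv O e
    have h2 : Ring.DimensionLEOne (intRing N) := Ring.DimensionLEOne.of_ringEquiv e.symm
    have h3 : IsIntegrallyClosed (intRing N) := IsIntegrallyClosed.of_equiv e
    exact { h1, h2, h3 with }
  · have hfg : Module.Finite ℤ (intRing N) :=
      Module.Finite.equiv (e.toAddEquiv.toIntLinearEquiv)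
    obtain ⟨s, hs⟩ := hfg.fg_top
    -- a common denominator
    have hden : ∀ t : Finset (intRing N), ∃ m : ℤ, m ≠ 0 ∧
        ∀ c ∈ t, (m : ℂ) * (c : ℂ) ∈ multipliers N := by
      classical
      intro t
      induction t using Finset.induction_on with
      | empty => exact ⟨1, one_ne_zero, by simp⟩
      | insert a t _ ih =>
        obtain ⟨m, hm, h⟩ := ih
        obtain ⟨k, hk, hka⟩ := (mem_intRing.1 a.2).1
        refine ⟨m * k, mul_ne_zero hm hk, fun c hc => ?_⟩
        rcases Finset.mem_insert.1 hc with rfl | hc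
        · push_cast
          rw [mul_assoc]
          exact mul_mem (intCast_mem _ m) hka
        · push_cast
          rw [mul_comm (m : ℂ), mul_assoc]
          exact mul_mem (intCast_mem _ k) (h c hc)
    obtain ⟨m, hm, h⟩ := hden s
    have hall : ∀ c : intRing N, (m : ℂ) * (c : ℂ) ∈ multipliers N := by
      intro c
      have hc : c ∈ Submodule.span ℤ (s : Set (intRing N)) := by rw [hs]; trivial
      induction hc using Submodule.span_induction with
      | mem x hx => exact h x hx
      | zero =>
        change (m : ℂ) * 0 ∈ multipliers N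
        rw [mul_zero]
        exact zero_mem _
      | add x y _ _ hx hy =>
        change (m : ℂ) * ((x : ℂ) + (y : ℂ)) ∈ multipliers N
        rw [mul_add]
        exact add_mem hx hy
      | smul a x _ hx =>
        have h2 : ((a • x : intRing N) : ℂ) = (a : ℂ) * x := by
          rw [zsmul_eq_mul]
          rfl
        rw [h2, mul_left_comm]
        exact mul_mem (intCast_mem _ a) hx
    refine ⟨m.natAbs, Int.natAbs_pos.mpr hm, fun c hc => ?_⟩
    have h5 := hall ⟨c, hc⟩
    rcases Int.natAbs_eq m with h6 | h6
    · rw [h6] at h5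
      simpa using h5
    · rw [h6] at h5
      have h7 := neg_mem h5
      simpa using h7

end Pool.Agent.Lib.MP0cb87d
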